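import Pool.Agent.Helper68.LM2.Geo
import Pool.Agent.Helper68.LM.Asm

/-!
# Project LM2 (MP_cb927e_an), module HIS: high frequencies, `1 < p < 2`
-/

set_option autoImplicit false

open MeasureTheory Set Filter Topology
open scoped ENNReal

namespace Pool.Agent.Helper27.LM2

open Pool.Agent.Helper68.LM2 Pool.Agent.Helper68.LM
open Pool.Agent.Helper29.LM.PB

/-- the pointwise bound -/
theorem his_point (ν : Measure Pl) (R L : ℝ) (hν : Bd R L ν) (N m : ℕ)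
    (g : Pl → ℝ) (hg : BB g) (x : Pl) (k : ℤ)
    (hconv : Tendsto (fun j : ℕ => Av ν ((2 : ℝ) ^ k) (Sm ((2 : ℝ) ^ (k - (j : ℤ))) g) x) atTop
      (𝓝 (Av ν ((2 : ℝ) ^ k) g x))) :
    ‖Em ν m k g x‖ₑ ≤ (⨆ k : ℤ, ‖Dk ν N m k g x‖ₑ) +
        ∑' j : ℕ, ⨆ k : ℤ, ‖Dk ν (N + j + 1) (N + j) k g x‖ₑ := by
  have hBBC := aBBC
  obtain ⟨h1, h2, h3, h4, h5, h6, h7⟩ := aBBC
  have hEm : Em ν m k g x = Av ν ((2 : ℝ) ^ k) g x -
      Av ν ((2 : ℝ) ^ k) (Sm ((2 : ℝ) ^ (k - (m : ℤ))) g) x := by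
    have h := h7 ν R L ((2 : ℝ) ^ k)
      (fun y => g y - Sm ((2 : ℝ) ^ (k - (m : ℤ))) g y)
      (Sm ((2 : ℝ) ^ (k - (m : ℤ))) g) x hν (h1 _ _ hg (h2 _ _ hg)) (h2 _ _ hg)
    simp only [sub_add_cancel] at h
    rw [Em]
    linarith
  have hfin : ∀ j : ℕ,
      ‖Av ν ((2 : ℝ) ^ k) (Sm ((2 : ℝ) ^ (k - ((N + j : ℕ) : ℤ))) g) x -
        Av ν ((2 : ℝ) ^ k) (Sm ((2 : ℝ) ^ (k - (m : ℤ))) g) x‖ₑ ≤
      (⨆ k : ℤ, ‖Dk ν N m k g x‖ₑ) +
        ∑ i ∈ Finset.range j, ⨆ k : ℤ, ‖Dk ν (N + i + 1) (N + i) k g x‖ₑ := by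
    intro j
    induction j with
    | zero =>
      rw [Finset.range_zero, Finset.sum_empty, add_zero, add_zero,
        ← Dk_eq hBBC ν R L hν N m k g hg x]
      exact le_iSup (fun k => ‖Dk ν N m k g x‖ₑ) k
    | succ j ih =>
      rw [Finset.sum_range_succ]
      have e : Av ν ((2 : ℝ) ^ k) (Sm ((2 : ℝ) ^ (k - ((N + (j + 1) : ℕ) : ℤ))) g) x -
          Av ν ((2 : ℝ) ^ k) (Sm ((2 : ℝ) ^ (k - (m : ℤ))) g) x =
          (Av ν ((2 : ℝ) ^ k) (Sm ((2 : ℝ) ^ (k - ((N + j : ℕ) : ℤ))) g) x -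
          Av ν ((2 : ℝ) ^ k) (Sm ((2 : ℝ) ^ (k - (m : ℤ))) g) x) +
          Dk ν (N + j + 1) (N + j) k g x := by
        rw [Dk_eq hBBC ν R L hν (N + j + 1) (N + j) k g hg x]
        rw [show N + (j + 1) = N + j + 1 by ring]
        ring
      rw [e]
      refine (enorm_add_le _ _).trans ?_
      refine (add_le_add ih (le_iSup (fun k => ‖Dk ν (N + j + 1) (N + j) k g x‖ₑ) k)).trans ?_
      exact (add_assoc _ _ _).le
  have hlim : Tendsto (fun j : ℕ =>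
      ‖Av ν ((2 : ℝ) ^ k) (Sm ((2 : ℝ) ^ (k - ((N + j : ℕ) : ℤ))) g) x -
        Av ν ((2 : ℝ) ^ k) (Sm ((2 : ℝ) ^ (k - (m : ℤ))) g) x‖ₑ) atTop
      (𝓝 ‖Em ν m k g x‖ₑ) := by
    rw [hEm]
    refine (continuous_enorm.tendsto _).comp ?_
    refine Tendsto.sub ?_ tendsto_const_nhds
    have h := hconv.comp (tendsto_add_atTop_nat N)
    refine h.congr fun j => ?_
    simp only [Function.comp_apply]
    rw [add_comm j N]
  refine le_of_tendsto' hlim fun j => (hfin j).trans (add_le_add le_rfl ?_)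
  exact ENNReal.sum_le_tsum _

/-- the two kinds of pieces -/
theorem his_piece (hLTG : StLTG) (p R : ℝ) (hp1 : 1 < p) (hp2 : p < 2)
    (hR : 0 < R) : ∃ K : ℝ, 0 < K ∧ ∀ (ν : Measure Pl) (L : ℝ) (N m : ℕ), Bd R L ν → 0 < L →
      Dec L N ν → m ≤ N → ∀ g : Pl → ℝ, BB g → (∀ x, 0 ≤ g x) →
      (∫⁻ x, (⨆ k : ℤ, ‖Dk ν N m k g x‖ₑ) ^ p ≤
        ENNReal.ofReal K *
          (ENNReal.ofReal (L ^ p * ((N : ℝ) - m + 1) ^ (p - 1) * ((N : ℝ) + 1) ^ (2 - p)) *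
            ∫⁻ x, ENNReal.ofReal (g x) ^ p)) ∧
      ∀ j : ℕ, ∫⁻ x, (⨆ k : ℤ, ‖Dk ν (N + j + 1) (N + j) k g x‖ₑ) ^ p ≤
        ENNReal.ofReal (2 * K * ((j + 1) * ((1 / 2 : ℝ) ^ (p - 1)) ^ j)) *
          (ENNReal.ofReal (L ^ p * ((N : ℝ) - m + 1) ^ (p - 1) * ((N : ℝ) + 1) ^ (2 - p)) *
            ∫⁻ x, ENNReal.ofReal (g x) ^ p) := by
  obtain ⟨C1, hC1, hG⟩ := hLTG
  obtain ⟨C2, hC2, hL2'⟩ := aL2D
  set C : ℝ := max C1 C2 with hCdef
  have hC : 0 < C := lt_max_of_lt_left hC1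
  obtain ⟨CT, hCT, hT⟩ := aTD p R (Real.sqrt C) hp1 hp2 hR (Real.sqrt_pos.2 hC)
  refine ⟨CT * C ^ (p - 1), by positivity, ?_⟩
  intro ν L N m hν hL hD hmN g hg hg0
  have hN : (0 : ℝ) < N + 1 := by positivity
  have hmN' : (m : ℝ) ≤ N := by exact_mod_cast hmN
  have hM1 : (1 : ℝ) ≤ (N : ℝ) - m + 1 := by linarith
  have hM : (0 : ℝ) < (N : ℝ) - m + 1 := by linarith
  have hMN : (N : ℝ) - m + 1 ≤ N + 1 := by
    have : (0 : ℝ) ≤ m := Nat.cast_nonneg m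
    linarith
  constructor
  · have hA : (Real.sqrt (C * ((N : ℝ) - m + 1)) * L) ^ 2 = C * L ^ 2 * ((N : ℝ) - m + 1) := by
      rw [mul_pow, Real.sq_sqrt (by positivity)]
      ring
    have hle : Real.sqrt (C * ((N : ℝ) - m + 1)) * L ≤ Real.sqrt C * (L * (N + 1)) := by
      have h1 : Real.sqrt (C * ((N : ℝ) - m + 1)) ≤ Real.sqrt (C * ((N : ℝ) + 1) ^ 2) := by
        refine Real.sqrt_le_sqrt (mul_le_mul_of_nonneg_left ?_ hC.le)
        have : (0 : ℝ) ≤ N := Nat.cast_nonneg N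
        nlinarith
      rw [Real.sqrt_mul hC.le, Real.sqrt_mul hC.le, Real.sqrt_sq hN.le] at h1
      rw [Real.sqrt_mul hC.le]
      nlinarith
    have h := hT ν L (Real.sqrt (C * ((N : ℝ) - m + 1)) * L) N m hν hL (by positivity) hle hmN
      (fun g hg => by
        rw [hA]
        refine ((hG ν R L N hν hL hD).2 N m hmN hmN g hg).trans ?_
        refine mul_le_mul_left (ENNReal.ofReal_le_ofReal ?_) _
        refine mul_le_mul_of_nonneg_right ?_ hM.le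
        exact mul_le_mul_of_nonneg_right (le_max_left _ _) (by positivity)) g hg hg0
    refine h.trans (le_of_eq ?_)
    rw [hA, td_const hC hL hN hM, om _ _ (by positivity)]
    congr 2
    ring
  · intro j
    have hz : (2 : ℝ) ^ ((N : ℤ) - ((N + j : ℕ) : ℤ)) = (1 / 2 : ℝ) ^ j := by
      rw [show ((N : ℤ) - ((N + j : ℕ) : ℤ)) = -(j : ℤ) by push_cast; ring, zpow_neg, zpow_natCast,
        one_div, inv_pow]
    have hs : (0 : ℝ) < (1 / 2 : ℝ) ^ j := by positivity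
    have hs1 : (1 / 2 : ℝ) ^ j ≤ 1 := pow_le_one₀ (by norm_num) (by norm_num)
    have hA : (Real.sqrt (C * (1 / 2 : ℝ) ^ j) * L) ^ 2 = C * L ^ 2 * (1 / 2 : ℝ) ^ j := by
      rw [mul_pow, Real.sq_sqrt (by positivity)]
      ring
    have hn : (0 : ℝ) < ((N + j + 1 : ℕ) : ℝ) + 1 := by positivity
    have hn1 : (1 : ℝ) ≤ ((N + j + 1 : ℕ) : ℝ) + 1 := by
      have : (0 : ℝ) ≤ ((N + j + 1 : ℕ) : ℝ) := Nat.cast_nonneg _
      linarith
    have hle : Real.sqrt (C * (1 / 2 : ℝ) ^ j) * L ≤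
        Real.sqrt C * (L * (((N + j + 1 : ℕ) : ℝ) + 1)) := by
      have h1 : Real.sqrt (C * (1 / 2 : ℝ) ^ j) ≤ Real.sqrt C :=
        Real.sqrt_le_sqrt (by nlinarith)
      have h2 : 0 ≤ Real.sqrt C := Real.sqrt_nonneg C
      calc Real.sqrt (C * (1 / 2 : ℝ) ^ j) * L ≤ Real.sqrt C * L :=
            mul_le_mul_of_nonneg_right h1 hL.le
        _ ≤ _ := mul_le_mul_of_nonneg_left (le_mul_of_one_le_right hL.le hn1) h2
    have h := hT ν L (Real.sqrt (C * (1 / 2 : ℝ) ^ j) * L) (N + j + 1) (N + j) hν hL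
      (by positivity) hle (Nat.le_succ _)
      (fun g hg => by
        rw [hA, ← hz]
        refine ((hL2' ν R L N hν hL hD (N + j + 1) (N + j) (Nat.le_succ _) g hg).2
          (Nat.le_add_right N j)).trans ?_
        refine mul_le_mul_left (ENNReal.ofReal_le_ofReal ?_) _
        refine mul_le_mul_of_nonneg_right ?_ (by positivity)
        exact mul_le_mul_of_nonneg_right (le_max_right _ _) (by positivity)) g hg hg0
    refine h.trans ?_
    rw [hA, td_const hC hL hn hs, om _ _ (by positivity)]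
    refine mul_le_mul_left (ENNReal.ofReal_le_ofReal ?_) _
    have e1 : ((1 / 2 : ℝ) ^ j) ^ (p - 1) = ((1 / 2 : ℝ) ^ (p - 1)) ^ j := by
      rw [← Real.rpow_natCast, ← Real.rpow_mul (by norm_num), mul_comm,
        Real.rpow_mul (by norm_num), Real.rpow_natCast]
    have e2 : (((N + j + 1 : ℕ) : ℝ) + 1) ^ (2 - p) ≤
        2 * ((N : ℝ) + 1) ^ (2 - p) * (j + 1) := by
      have h1 : (0 : ℝ) ≤ N := Nat.cast_nonneg N
      have h2 : (0 : ℝ) ≤ j := Nat.cast_nonneg j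
      have h3 : ((N + j + 1 : ℕ) : ℝ) + 1 ≤ ((N : ℝ) + 1) * (2 * (j + 1)) := by
        push_cast
        nlinarith [mul_nonneg h1 h2]
      calc (((N + j + 1 : ℕ) : ℝ) + 1) ^ (2 - p) ≤ (((N : ℝ) + 1) * (2 * (j + 1))) ^ (2 - p) :=
            Real.rpow_le_rpow hn.le h3 (by linarith)
        _ = ((N : ℝ) + 1) ^ (2 - p) * (2 * ((j : ℝ) + 1)) ^ (2 - p) :=
            Real.mul_rpow hN.le (by positivity)
        _ ≤ ((N : ℝ) + 1) ^ (2 - p) * (2 * ((j : ℝ) + 1)) ^ (1 : ℝ) := by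
            refine mul_le_mul_of_nonneg_left ?_ (by positivity)
            exact Real.rpow_le_rpow_of_exponent_le (by linarith) (by linarith)
        _ = _ := by
            rw [Real.rpow_one]
            ring
    have e3 : (1 : ℝ) ≤ ((N : ℝ) - m + 1) ^ (p - 1) := Real.one_le_rpow hM1 (by linarith)
    rw [e1]
    have hr : 0 ≤ ((1 / 2 : ℝ) ^ (p - 1)) ^ j := by positivity
    calc CT * C ^ (p - 1) *
          ((((N + j + 1 : ℕ) : ℝ) + 1) ^ (2 - p) * ((1 / 2 : ℝ) ^ (p - 1)) ^ j) * L ^ p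
        ≤ CT * C ^ (p - 1) *
          ((2 * ((N : ℝ) + 1) ^ (2 - p) * (j + 1)) * ((1 / 2 : ℝ) ^ (p - 1)) ^ j) * L ^ p := by
          gcongr
      _ = (CT * C ^ (p - 1) *
          ((2 * ((N : ℝ) + 1) ^ (2 - p) * (j + 1)) * ((1 / 2 : ℝ) ^ (p - 1)) ^ j) * L ^ p) * 1 := by
          rw [mul_one]
      _ ≤ (CT * C ^ (p - 1) *
          ((2 * ((N : ℝ) + 1) ^ (2 - p) * (j + 1)) * ((1 / 2 : ℝ) ^ (p - 1)) ^ j) * L ^ p) *
          ((N : ℝ) - m + 1) ^ (p - 1) :=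
          mul_le_mul_of_nonneg_left e3 (by positivity)
      _ = _ := by ring

/-- HIS. -/
theorem hHIS (hLTG : StLTG) : StHIS := by
  intro p R hp1 hp2 hR
  obtain ⟨K, hK, hpc⟩ := his_piece hLTG p R hp1 hp2 hR
  have hp0 : 0 < p := by linarith
  set r : ℝ := (1 / 2 : ℝ) ^ (p - 1) with hr
  have hr0 : 0 < r := by positivity
  have hr1 : r < 1 := Real.rpow_lt_one (by norm_num) (by norm_num) (by linarith)
  set q : ℝ := r ^ (1 / p) with hq
  have hq0 : 0 < q := by positivity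
  have hq1 : q < 1 := Real.rpow_lt_one hr0.le hr1 (by positivity)
  have hsum : Summable fun j : ℕ => ((j : ℝ) + 1) * q ^ j := by
    have h1 := summable_pow_mul_geometric_of_norm_lt_one 1 (r := q)
      (by rw [Real.norm_of_nonneg hq0.le]; exact hq1)
    have h2 := summable_geometric_of_lt_one hq0.le hq1
    refine (h1.add h2).congr fun j => ?_
    rw [pow_one]
    ring
  set S : ℝ := ∑' j : ℕ, ((j : ℝ) + 1) * q ^ j with hSdef
  have hS0 : 0 ≤ S := tsum_nonneg fun j => by positivity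
  set Dr : ℝ := K ^ (1 / p) + (2 * K) ^ (1 / p) * S with hDr
  have hDr0 : 0 < Dr := by positivity
  refine ⟨Dr ^ p, by positivity, ?_⟩
  intro ν L N m hν hL hD hmN g hg hg0
  obtain ⟨hT0, hTj⟩ := hpc ν L N m hν hL hD hmN g hg hg0
  have hmN' : (m : ℝ) ≤ N := by exact_mod_cast hmN
  have hM : (0 : ℝ) < (N : ℝ) - m + 1 := by linarith
  set G : ℝ≥0∞ := ∫⁻ x, ENNReal.ofReal (g x) ^ p with hG
  set Y : ℝ := L ^ p * ((N : ℝ) - m + 1) ^ (p - 1) * ((N : ℝ) + 1) ^ (2 - p) with hY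
  set X : ℝ≥0∞ := ENNReal.ofReal Y * G with hX
  set f₂ : Pl → ℝ≥0∞ := fun x => ⨆ k : ℤ, ‖Dk ν N m k g x‖ₑ with hf₂
  set f₃ : ℕ → Pl → ℝ≥0∞ := fun j x => ⨆ k : ℤ, ‖Dk ν (N + j + 1) (N + j) k g x‖ₑ with hf₃
  have hm₂ : Measurable f₂ := T_meas aBBC ν R L hν N m g hg
  have hm₃ : ∀ j, Measurable (f₃ j) := fun j => T_meas aBBC ν R L hν _ _ g hg
  have hae : ∀ᵐ x, (⨆ k : ℤ, ‖Em ν m k g x‖ₑ) ^ p ≤ (f₂ x + ∑' j, f₃ j x) ^ p := by
    filter_upwards [aCONV ν R L hν g hg] with x hx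
    refine ENNReal.rpow_le_rpow (iSup_le fun k => ?_) hp0.le
    exact his_point ν R L hν N m g hg x k (hx k)
  have hroot : ∀ (I : ℝ≥0∞) (c : ℝ), 0 ≤ c → I ≤ ENNReal.ofReal c * X →
      I ^ (1 / p) ≤ ENNReal.ofReal (c ^ (1 / p)) * X ^ (1 / p) := by
    intro I c hc hI
    refine (ENNReal.rpow_le_rpow hI (by positivity)).trans (le_of_eq ?_)
    rw [ENNReal.mul_rpow_of_nonneg _ _ (by positivity),
      ENNReal.ofReal_rpow_of_nonneg hc (by positivity)]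
  have hN₂ := hroot _ _ hK.le hT0
  have hN₃ : ∀ j : ℕ, (∫⁻ x, f₃ j x ^ p) ^ (1 / p) ≤
      ENNReal.ofReal ((2 * K) ^ (1 / p) * (((j : ℝ) + 1) * q ^ j)) * X ^ (1 / p) := by
    intro j
    refine (hroot _ _ (by positivity) (hTj j)).trans (mul_le_mul_left (ENNReal.ofReal_le_ofReal ?_) _)
    rw [Real.mul_rpow (x := 2 * K) (by positivity) (by positivity),
      Real.mul_rpow (x := (j : ℝ) + 1) (by positivity) (by positivity)]
    have h1 : ((j : ℝ) + 1) ^ (1 / p) ≤ (j : ℝ) + 1 := by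
      have h2 : (1 : ℝ) ≤ (j : ℝ) + 1 := by
        have : (0 : ℝ) ≤ j := Nat.cast_nonneg j
        linarith
      calc ((j : ℝ) + 1) ^ (1 / p) ≤ ((j : ℝ) + 1) ^ (1 : ℝ) :=
            Real.rpow_le_rpow_of_exponent_le h2 (by rw [div_le_one hp0]; exact hp1.le)
        _ = _ := Real.rpow_one _
    have h2 : (r ^ j) ^ (1 / p) = q ^ j := by
      rw [hq, ← Real.rpow_natCast, ← Real.rpow_mul hr0.le, mul_comm, Real.rpow_mul hr0.le,
        Real.rpow_natCast]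
    rw [h2]
    have h3 : 0 ≤ (2 * K) ^ (1 / p) := by positivity
    exact mul_le_mul_of_nonneg_left (mul_le_mul_of_nonneg_right h1 (by positivity)) h3
  have hM₃ : (∫⁻ x, (∑' j, f₃ j x) ^ p) ^ (1 / p) ≤
      ENNReal.ofReal ((2 * K) ^ (1 / p) * S) * X ^ (1 / p) := by
    refine (mink_tsum hp1.le f₃ hm₃).trans ((ENNReal.tsum_le_tsum hN₃).trans (le_of_eq ?_))
    rw [ENNReal.tsum_mul_right, ← ENNReal.ofReal_tsum_of_nonneg (fun j => by positivity)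
      (hsum.mul_left _), tsum_mul_left]
  have hMt : (∫⁻ x, (f₂ x + ∑' j, f₃ j x) ^ p) ^ (1 / p) ≤
      ENNReal.ofReal Dr * X ^ (1 / p) := by
    have h1 := ENNReal.lintegral_Lp_add_le (μ := (volume : Measure Pl)) (f := f₂)
      (g := fun x => ∑' j, f₃ j x) hm₂.aemeasurable
      (Measurable.tsum hm₃).aemeasurable hp1.le
    refine h1.trans ?_
    calc _ ≤ ENNReal.ofReal (K ^ (1 / p)) * X ^ (1 / p) +
          ENNReal.ofReal ((2 * K) ^ (1 / p) * S) * X ^ (1 / p) :=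
          add_le_add hN₂ hM₃
      _ = _ := by
          rw [← add_mul, ← ENNReal.ofReal_add (by positivity) (by positivity)]
  calc ∫⁻ x, (⨆ k : ℤ, ‖Em ν m k g x‖ₑ) ^ p
      ≤ ∫⁻ x, (f₂ x + ∑' j, f₃ j x) ^ p := lintegral_mono_ae hae
    _ = ((∫⁻ x, (f₂ x + ∑' j, f₃ j x) ^ p) ^ (1 / p)) ^ p := by
        rw [← ENNReal.rpow_mul, one_div, inv_mul_cancel₀ hp0.ne', ENNReal.rpow_one]
    _ ≤ (ENNReal.ofReal Dr * X ^ (1 / p)) ^ p := ENNReal.rpow_le_rpow hMt hp0.le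
    _ = ENNReal.ofReal (Dr ^ p) * X := by
        rw [ENNReal.mul_rpow_of_nonneg _ _ hp0.le, ENNReal.ofReal_rpow_of_nonneg hDr0.le hp0.le,
          ← ENNReal.rpow_mul, one_div, inv_mul_cancel₀ hp0.ne', ENNReal.rpow_one]
    _ = _ := by
        rw [hX, om _ _ (by positivity)]

end Pool.Agent.Helper27.LM2
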