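import Pool.Agent.Helper68.LM2.Geo
import Pool.Agent.Helper68.LM.Asm

/-!
# Project LM2 (MP_cb927e_an), module LTG: square function bounds in `L^2`
-/

set_option autoImplicit false

open MeasureTheory Set Filter Topology
open scoped ENNReal RealInnerProductSpace FourierTransform

namespace Pool.Agent.Helper27.LM2

open Pool.Agent.Helper68.LM2 Pool.Agent.Helper68.LM

/-- LTG. -/
theorem hLTG (hNUT : StNUT) : StLTG := by
  obtain ⟨C, hC, hnum⟩ := hNUT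
  obtain ⟨hBsub, hBSm, hBAv, -⟩ := aBBC
  obtain ⟨hFS1, hFS2, hFS3, hFS4⟩ := aFS
  have hPL := Pool.Agent.Helper79.LM.hPL
  have hFA := Pool.Agent.Helper80.LM.hFA
  refine ⟨C, hC, ?_⟩
  intro ν R L N hBd hL hDec
  constructor
  · intro m hm g hg
    have hBBh : ∀ k : ℤ, BB (fun x => g x - Sm ((2 : ℝ) ^ (k - (m : ℤ))) g x) := fun k =>
      hBsub g _ hg (hBSm g _ hg)
    have hBBE : ∀ k : ℤ, BB (Em ν m k g) := fun k =>
      hBAv ν R L _ _ hBd (by positivity) (hBBh k)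
    have key := Pool.Agent.Helper17.LM.l2_core hPL (fun k => Em ν m k g) g hBBE hg
      (fun k ξ => min 1 (2 ^ N / ((2 : ℝ) ^ k * ‖ξ‖)) *
        min 4 ((4 * Real.pi * ((2 : ℝ) ^ (k - (m : ℤ)) * ‖ξ‖)) ^ 2)) L
        (C * ((N : ℝ) - m + 1)) hL ?_ ?_
    · refine key.trans (le_of_eq ?_)
      congr 2
      ring
    · intro k ξ hξ
      have h2k : (0 : ℝ) < (2 : ℝ) ^ k := by positivity
      have h2m : (0 : ℝ) < (2 : ℝ) ^ (k - (m : ℤ)) := by positivity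
      have hη : (2 : ℝ) ^ k • ξ ≠ 0 := smul_ne_zero h2k.ne' hξ
      have hn : ‖(2 : ℝ) ^ k • ξ‖ = (2 : ℝ) ^ k * ‖ξ‖ := by
        rw [norm_smul, Real.norm_of_nonneg h2k.le]
      have hnm : ‖(2 : ℝ) ^ (k - (m : ℤ)) • ξ‖ = (2 : ℝ) ^ (k - (m : ℤ)) * ‖ξ‖ := by
        rw [norm_smul, Real.norm_of_nonneg h2m.le]
      have e1 : ft (Em ν m k g) ξ =
          fm ν ((2 : ℝ) ^ k • ξ) * ((1 - ft ph ((2 : ℝ) ^ (k - (m : ℤ)) • ξ)) * ft g ξ) := by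
        rw [show Em ν m k g = Av ν ((2 : ℝ) ^ k)
            (fun x => g x - Sm ((2 : ℝ) ^ (k - (m : ℤ))) g x) from rfl,
          hFA ν R L _ _ hBd h2k (hBBh k) ξ, hFS4 g _ hg (hBSm g _ hg) ξ, hFS1 _ g h2m hg ξ]
        ring
      have e2 := Pool.Agent.Helper17.LM.fm_sq_le ν R L N hBd hL hDec _ hη
      rw [hn] at e2
      have e3 : ‖1 - ft ph ((2 : ℝ) ^ (k - (m : ℤ)) • ξ)‖ ^ 2 ≤
          min 4 ((4 * Real.pi * ((2 : ℝ) ^ (k - (m : ℤ)) * ‖ξ‖)) ^ 2) := by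
        apply le_min
        · have : ‖1 - ft ph ((2 : ℝ) ^ (k - (m : ℤ)) • ξ)‖ ≤ 2 := by
            calc ‖1 - ft ph ((2 : ℝ) ^ (k - (m : ℤ)) • ξ)‖
                ≤ ‖(1 : ℂ)‖ + ‖ft ph ((2 : ℝ) ^ (k - (m : ℤ)) • ξ)‖ := norm_sub_le _ _
              _ ≤ 1 + 1 := by
                  rw [norm_one]
                  exact add_le_add le_rfl (hFS2 _)
              _ = 2 := by norm_num
          calc ‖1 - ft ph ((2 : ℝ) ^ (k - (m : ℤ)) • ξ)‖ ^ 2 ≤ 2 ^ 2 :=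
                pow_le_pow_left₀ (norm_nonneg _) this 2
            _ = 4 := by norm_num
        · have h := hFS3 ((2 : ℝ) ^ (k - (m : ℤ)) • ξ)
          rw [hnm] at h
          refine pow_le_pow_left₀ (norm_nonneg _) (h.trans ?_) 2
          have hp := Real.pi_pos
          have : 0 ≤ (2 : ℝ) ^ (k - (m : ℤ)) * ‖ξ‖ := by positivity
          nlinarith [mul_nonneg hp.le this]
      rw [e1, norm_mul, norm_mul, mul_pow, mul_pow]
      have hm1 : 0 ≤ min 1 (2 ^ N / ((2 : ℝ) ^ k * ‖ξ‖)) := le_min zero_le_one (by positivity)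
      calc ‖fm ν ((2 : ℝ) ^ k • ξ)‖ ^ 2 *
            (‖1 - ft ph ((2 : ℝ) ^ (k - (m : ℤ)) • ξ)‖ ^ 2 * ‖ft g ξ‖ ^ 2)
          ≤ (L ^ 2 * min 1 (2 ^ N / ((2 : ℝ) ^ k * ‖ξ‖))) *
            (min 4 ((4 * Real.pi * ((2 : ℝ) ^ (k - (m : ℤ)) * ‖ξ‖)) ^ 2) * ‖ft g ξ‖ ^ 2) := by
            apply mul_le_mul e2 _ (by positivity) (by positivity)
            exact mul_le_mul_of_nonneg_right e3 (by positivity)
        _ = _ := by ring
    · intro ξ hξ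
      exact hnum N m ‖ξ‖ (norm_pos_iff.mpr hξ) hm
  · intro a b hab hbN g hg
    have hBBh : ∀ k : ℤ, BB (fun x => Sm ((2 : ℝ) ^ (k - (a : ℤ))) g x -
        Sm ((2 : ℝ) ^ (k - (b : ℤ))) g x) := fun k =>
      hBsub _ _ (hBSm g _ hg) (hBSm g _ hg)
    have hBBE : ∀ k : ℤ, BB (Dk ν a b k g) := fun k =>
      hBAv ν R L _ _ hBd (by positivity) (hBBh k)
    have hpt : ∀ (k : ℤ) (ξ : Pl), ξ ≠ 0 → ‖ft (Dk ν a b k g) ξ‖ ^ 2 ≤
        L ^ 2 * (min 1 (2 ^ N / ((2 : ℝ) ^ k * ‖ξ‖)) *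
        min 4 ((4 * Real.pi * ((2 : ℝ) ^ (k - (b : ℤ)) * ‖ξ‖)) ^ 2)) * ‖ft g ξ‖ ^ 2 := by
      intro k ξ hξ
      have h2k : (0 : ℝ) < (2 : ℝ) ^ k := by positivity
      have h2a : (0 : ℝ) < (2 : ℝ) ^ (k - (a : ℤ)) := by positivity
      have h2b : (0 : ℝ) < (2 : ℝ) ^ (k - (b : ℤ)) := by positivity
      have hη : (2 : ℝ) ^ k • ξ ≠ 0 := smul_ne_zero h2k.ne' hξ
      have hn : ‖(2 : ℝ) ^ k • ξ‖ = (2 : ℝ) ^ k * ‖ξ‖ := by
        rw [norm_smul, Real.norm_of_nonneg h2k.le]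
      have hna : ‖(2 : ℝ) ^ (k - (a : ℤ)) • ξ‖ = (2 : ℝ) ^ (k - (a : ℤ)) * ‖ξ‖ := by
        rw [norm_smul, Real.norm_of_nonneg h2a.le]
      have hnb : ‖(2 : ℝ) ^ (k - (b : ℤ)) • ξ‖ = (2 : ℝ) ^ (k - (b : ℤ)) * ‖ξ‖ := by
        rw [norm_smul, Real.norm_of_nonneg h2b.le]
      have e1 : ft (Dk ν a b k g) ξ =
          fm ν ((2 : ℝ) ^ k • ξ) * ((ft ph ((2 : ℝ) ^ (k - (a : ℤ)) • ξ) -
            ft ph ((2 : ℝ) ^ (k - (b : ℤ)) • ξ)) * ft g ξ) := by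
        rw [show Dk ν a b k g = Av ν ((2 : ℝ) ^ k) (fun x => Sm ((2 : ℝ) ^ (k - (a : ℤ))) g x -
            Sm ((2 : ℝ) ^ (k - (b : ℤ))) g x) from rfl,
          hFA ν R L _ _ hBd h2k (hBBh k) ξ, hFS4 _ _ (hBSm g _ hg) (hBSm g _ hg) ξ,
          hFS1 _ g h2a hg ξ, hFS1 _ g h2b hg ξ]
        ring
      have e2 := Pool.Agent.Helper17.LM.fm_sq_le ν R L N hBd hL hDec _ hη
      rw [hn] at e2
      set A : ℂ := ft ph ((2 : ℝ) ^ (k - (a : ℤ)) • ξ) with hA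
      set B : ℂ := ft ph ((2 : ℝ) ^ (k - (b : ℤ)) • ξ) with hB
      have e3 : ‖A - B‖ ^ 2 ≤
          min 4 ((4 * Real.pi * ((2 : ℝ) ^ (k - (b : ℤ)) * ‖ξ‖)) ^ 2) := by
        apply le_min
        · have : ‖A - B‖ ≤ 2 := by
            calc ‖A - B‖ ≤ ‖A‖ + ‖B‖ := norm_sub_le _ _
              _ ≤ 1 + 1 := add_le_add (hFS2 _) (hFS2 _)
              _ = 2 := by norm_num
          calc ‖A - B‖ ^ 2 ≤ 2 ^ 2 := pow_le_pow_left₀ (norm_nonneg _) this 2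
            _ = 4 := by norm_num
        · have h1 := hFS3 ((2 : ℝ) ^ (k - (a : ℤ)) • ξ)
          have h2 := hFS3 ((2 : ℝ) ^ (k - (b : ℤ)) • ξ)
          rw [hna, ← hA] at h1
          rw [hnb, ← hB] at h2
          have hp := Real.pi_pos
          have hle : (2 : ℝ) ^ (k - (a : ℤ)) ≤ (2 : ℝ) ^ (k - (b : ℤ)) := by
            apply zpow_le_zpow_right₀ (by norm_num)
            have : (b : ℤ) ≤ (a : ℤ) := by exact_mod_cast hab
            linarith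
          have h3 : ‖A - B‖ ≤ ‖1 - B‖ + ‖1 - A‖ := by
            calc ‖A - B‖ = ‖(1 - B) - (1 - A)‖ := by congr 1; ring
              _ ≤ ‖1 - B‖ + ‖1 - A‖ := norm_sub_le _ _
          refine pow_le_pow_left₀ (norm_nonneg _) ?_ 2
          have h4 : 2 * Real.pi * ((2 : ℝ) ^ (k - (a : ℤ)) * ‖ξ‖) ≤
              2 * Real.pi * ((2 : ℝ) ^ (k - (b : ℤ)) * ‖ξ‖) := by
            apply mul_le_mul_of_nonneg_left _ (by positivity)
            exact mul_le_mul_of_nonneg_right hle (norm_nonneg _)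
          linarith
      rw [e1, norm_mul, norm_mul, mul_pow, mul_pow]
      have hm1 : 0 ≤ min 1 (2 ^ N / ((2 : ℝ) ^ k * ‖ξ‖)) := le_min zero_le_one (by positivity)
      calc ‖fm ν ((2 : ℝ) ^ k • ξ)‖ ^ 2 * (‖A - B‖ ^ 2 * ‖ft g ξ‖ ^ 2)
          ≤ (L ^ 2 * min 1 (2 ^ N / ((2 : ℝ) ^ k * ‖ξ‖))) *
            (min 4 ((4 * Real.pi * ((2 : ℝ) ^ (k - (b : ℤ)) * ‖ξ‖)) ^ 2) * ‖ft g ξ‖ ^ 2) := by
            apply mul_le_mul e2 _ (by positivity) (by positivity)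
            exact mul_le_mul_of_nonneg_right e3 (by positivity)
        _ = _ := by ring
    have key := Pool.Agent.Helper17.LM.l2_core hPL (fun k => Dk ν a b k g) g hBBE hg
      (fun k ξ => min 1 (2 ^ N / ((2 : ℝ) ^ k * ‖ξ‖)) *
        min 4 ((4 * Real.pi * ((2 : ℝ) ^ (k - (b : ℤ)) * ‖ξ‖)) ^ 2)) L
        (C * ((N : ℝ) - b + 1)) hL hpt
        (fun ξ hξ => hnum N b ‖ξ‖ (norm_pos_iff.mpr hξ) hbN)
    refine key.trans (le_of_eq ?_)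
    congr 2
    ring

end Pool.Agent.Helper27.LM2
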